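import Mathlib
import Pool.Agent.H215_Arch.Final

/-!
Conrad's question for torsion-free algebraically compact groups of any cardinality: every torsion-free
abelian group in which all Cauchy sequences of the integer-adic topology converge carries an
Archimedean lattice order.

Outline. For every prime `p` choose elements `b_i` representing a basis of `G/pG` over the field with
`p` elements. Since `G` is torsion-free, every `g` is, modulo `p^n`, an integral combination of the
`b_i`, and the coefficients are unique modulo `p^n`; in the limit they give additive coordinates of
`g` in the p-adic integers. Completeness and the Chinese remainder theorem show that replacing any set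
of coordinates (for all primes at once) of an element by zero gives the coordinates of an element.
The common kernel of the coordinates is the divisible part, which gets rational coordinates. The
additive group of the p-adic integers embeds in the real numbers; with the order taken from such an
embedding the coordinatewise maximum of two elements is an element, so the coordinatewise order is
a lattice order, and it is Archimedean.
-/

set_option autoImplicit false

namespace Pool.Agent.Results.MP_764a00_al.AlgebraicallyCompact

open Nat

/-- Every torsion-free abelian group `G`, of any cardinality, in which the Cauchy sequences of the
integer-adic topology converge, carries an Archimedean lattice order. -/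
theorem result (G : Type) [AddCommGroup G]
    (htf : ∀ g : G, ∀ n : ℕ, n ≠ 0 → n • g = 0 → g = 0)
    (hcomplete : ∀ f : ℕ → G, (∀ n : ℕ, ∃ y : G, f (n + 1) - f n = n ! • y) →
      ∃ L : G, ∀ n : ℕ, ∃ y : G, L - f n = n ! • y) :
    ∃ _ : Lattice G,
      (∀ a b c : G, a ≤ b → c + a ≤ c + b) ∧
      (∀ a b : G, (∀ n : ℕ, n • a ≤ b) → a ≤ 0) :=
  H215_Arch.hasArch_of_cauchyComplete G htf hcomplete

end Pool.Agent.Results.MP_764a00_al.AlgebraicallyCompact
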